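import Pool.Agent.helper2.Bis.Defs

set_option autoImplicit false

/-!
# Edge-minimal subgraphs of given minimum degree (module B1)
-/

namespace Pool.Agent.helper71.Bis

open Finset Pool.Agent.helper2.Bis

theorem edge_minimal {V : Type} [Fintype V] (R : V → V → Prop) (hsymm : ∀ u v, R u v → R v u)
    (m : ℕ) (h : ∀ v, m ≤ dg R v) :
    ∃ S : V → V → Prop, (∀ u v, S u v → S v u) ∧ (∀ u v, S u v → R u v) ∧ (∀ v, m ≤ dg S v) ∧
      ∀ u v, S u v → dg S u = m ∨ dg S v = m := by
  classical
  obtain ⟨N, hN⟩ : ∃ N, N = ∑ v, dg R v := ⟨_, rfl⟩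
  induction N using Nat.strong_induction_on generalizing R with
  | _ N ih =>
    by_cases hR : ∀ u v, R u v → dg R u = m ∨ dg R v = m
    · exact ⟨R, hsymm, fun _ _ h => h, h, hR⟩
    · push Not at hR
      obtain ⟨u, v, huv, hu, hv⟩ := hR
      set R' : V → V → Prop := fun a b => R a b ∧ ¬ ((a = u ∧ b = v) ∨ (a = v ∧ b = u)) with hR'
      have hu' : m < dg R u := lt_of_le_of_ne (h u) (Ne.symm hu)
      have hv' : m < dg R v := lt_of_le_of_ne (h v) (Ne.symm hv)
      have hsub : ∀ a, nb R' a ⊆ nb R a := by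
        intro a b hb
        exact mem_nb.2 (mem_nb.1 hb).1
      have hsub2 : ∀ a, a ≠ u → a ≠ v → nb R' a = nb R a := by
        intro a h1 h2
        refine Finset.Subset.antisymm (hsub a) ?_
        intro b hb
        refine mem_nb.2 ⟨mem_nb.1 hb, ?_⟩
        rintro (⟨h3, _⟩ | ⟨h3, _⟩)
        · exact h1 h3
        · exact h2 h3
      have hone : ∀ a c, (∀ b, b ∈ nb R a → b ≠ c → b ∈ nb R' a) → dg R a ≤ dg R' a + 1 := by
        intro a c hc
        have h1 : (nb R a).erase c ⊆ nb R' a := by
          intro b hb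
          exact hc b (Finset.mem_of_mem_erase hb) (Finset.ne_of_mem_erase hb)
        have h2 := Finset.card_le_card h1
        have h3 := Finset.pred_card_le_card_erase (s := nb R a) (a := c)
        unfold dg
        omega
      have h1 : ∀ a, m ≤ dg R' a := by
        intro a
        by_cases hau : a = u
        · by_cases hav : a = v
          · have h2 := hone a v (fun b hb hbc => mem_nb.2 ⟨mem_nb.1 hb, by
              rintro (⟨_, h3⟩ | ⟨_, h3⟩)
              · exact hbc h3
              · exact hbc (h3.trans (hau.symm.trans hav))⟩)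
            rw [hau] at h2 ⊢
            omega
          · have h2 := hone a v (fun b hb hbc => mem_nb.2 ⟨mem_nb.1 hb, by
              rintro (⟨_, h3⟩ | ⟨h3, _⟩)
              · exact hbc h3
              · exact hav h3⟩)
            rw [hau] at h2 ⊢
            omega
        · by_cases hav : a = v
          · have h2 := hone a u (fun b hb hbc => mem_nb.2 ⟨mem_nb.1 hb, by
              rintro (⟨h3, _⟩ | ⟨_, h3⟩)
              · exact hau h3
              · exact hbc h3⟩)
            rw [hav] at h2 ⊢
            omega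
          · unfold dg
            rw [hsub2 a hau hav]
            exact h a
      have h2 : ∑ a, dg R' a < ∑ a, dg R a := by
        refine Finset.sum_lt_sum (fun a _ => Finset.card_le_card (hsub a)) ⟨u, Finset.mem_univ _, ?_⟩
        refine Finset.card_lt_card ⟨hsub u, fun hc => ?_⟩
        have := mem_nb.1 (hc (mem_nb.2 huv))
        exact this.2 (Or.inl ⟨rfl, rfl⟩)
      obtain ⟨S, hS1, hS2, hS3, hS4⟩ := ih _ (hN ▸ h2) R' (fun a b hab => ⟨hsymm _ _ hab.1, by
        rintro (⟨h3, h4⟩ | ⟨h3, h4⟩)
        · exact hab.2 (Or.inr ⟨h4, h3⟩)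
        · exact hab.2 (Or.inl ⟨h4, h3⟩)⟩) h1 rfl
      exact ⟨S, hS1, fun a b hab => (hS2 a b hab).1, hS3, hS4⟩

end Pool.Agent.helper71.Bis
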