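import Pool.Agent.helper26.Bis.LLL

set_option autoImplicit false

/-!
# Bernoulli product measure: basic facts and a tail bound (module B2)
-/

namespace Pool.Agent.helper71.Bis

open Finset Pool.Agent.helper2.Bis

theorem Pr_true {ι : Type} [Fintype ι] (p : ι → ℝ) : Pr p (fun _ => True) = 1 :=
  Pool.Agent.helper26.Bis.Pr_true' p

theorem Pr_mono {ι : Type} [Fintype ι] (p : ι → ℝ) (hp : ∀ i, 0 ≤ p i ∧ p i ≤ 1)
    (A B : (ι → Bool) → Prop) (h : ∀ ω, A ω → B ω) : Pr p A ≤ Pr p B :=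
  Pool.Agent.helper26.Bis.Pr_mono' p hp A B h

theorem Pr_or_le {ι : Type} [Fintype ι] (p : ι → ℝ) (hp : ∀ i, 0 ≤ p i ∧ p i ≤ 1)
    (A B : (ι → Bool) → Prop) : Pr p (fun ω => A ω ∨ B ω) ≤ Pr p A + Pr p B := by
  classical
  unfold Pr
  rw [← Finset.sum_add_distrib]
  refine Finset.sum_le_sum fun ω _ => ?_
  have h := Pool.Agent.helper26.Bis.wt_nonneg p hp ω
  by_cases h1 : A ω <;> by_cases h2 : B ω <;> simp [h1, h2, h]

theorem sum_prod {ι : Type} [Fintype ι] [DecidableEq ι] (f : ι → Bool → ℝ) :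
    ∑ ω : ι → Bool, ∏ i, f i (ω i) = ∏ i, (f i true + f i false) := by
  have h := Finset.prod_univ_sum (fun _ : ι => (Finset.univ : Finset Bool)) f
  rw [Fintype.piFinset_univ] at h
  rw [← h]
  refine Finset.prod_congr rfl fun i _ => ?_
  simp

theorem dev {ι : Type} [Fintype ι] (p : ι → ℝ) (hp : ∀ i, 0 ≤ p i ∧ p i ≤ 1)
    (c : ι → ℝ) (hc : ∀ i, |c i| ≤ 1) (S : Finset ι) (hS : ∀ i, i ∉ S → c i = 0)
    (l : ℝ) (hl0 : 0 ≤ l) (hl1 : l ≤ 1) (t : ℝ) :
    Pr p (fun ω => t ≤ ∑ i, c i * ((if ω i = true then (1 : ℝ) else 0) - p i))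
      ≤ Real.exp (-(l * t) + l ^ 2 * S.card / 4) := by
  classical
  set f : ι → Bool → ℝ := fun i b => (if b = true then p i else 1 - p i) *
    Real.exp (l * (c i * ((if b = true then (1 : ℝ) else 0) - p i))) with hf
  have h1 : Pr p (fun ω => t ≤ ∑ i, c i * ((if ω i = true then (1 : ℝ) else 0) - p i)) ≤
      ∑ ω : ι → Bool, Real.exp (-(l * t)) * ∏ i, f i (ω i) := by
    unfold Pr
    refine Finset.sum_le_sum fun ω _ => ?_
    have h := Pool.Agent.helper26.Bis.wt_nonneg p hp ω
    have e1 : Real.exp (-(l * t)) * ∏ i, f i (ω i) = wt p ω *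
        Real.exp (l * (∑ i, c i * ((if ω i = true then (1 : ℝ) else 0) - p i) - t)) := by
      simp only [hf]
      rw [Finset.prod_mul_distrib, ← Real.exp_sum, ← Finset.mul_sum]
      unfold wt
      rw [mul_left_comm, ← Real.exp_add]
      congr 2
      ring
    rw [e1]
    split_ifs with h2
    · have h3 : 1 ≤ Real.exp (l * (∑ i, c i * ((if ω i = true then (1 : ℝ) else 0) - p i) - t)) :=
        Real.one_le_exp (mul_nonneg hl0 (by linarith))
      nlinarith
    · positivity
  rw [← Finset.mul_sum, sum_prod] at h1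
  refine h1.trans ?_
  rw [Real.exp_add]
  refine mul_le_mul_of_nonneg_left ?_ (Real.exp_pos _).le
  have h2 : ∀ i, 0 ≤ f i true + f i false := by
    intro i
    have := hp i
    have h3 : 0 ≤ 1 - p i := by linarith [this.2]
    have h4 := this.1
    simp only [hf]
    simp only [if_true, Bool.false_eq_true, if_false]
    positivity
  have h3 : ∀ i ∈ S, f i true + f i false ≤ Real.exp (l ^ 2 / 4) := by
    intro i _
    have hpi := hp i
    have hci := abs_le.1 (hc i)
    have key : ∀ x : ℝ, |x| ≤ 1 → Real.exp (l * (c i * x)) ≤ 1 + l * (c i * x) + l ^ 2 * x ^ 2 := by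
      intro x hx
      have h4 : |l * (c i * x)| ≤ 1 := by
        rw [abs_mul, abs_mul, abs_of_nonneg hl0]
        have h5 : |c i| * |x| ≤ 1 := mul_le_one₀ (hc i) (abs_nonneg _) hx
        have h6 : 0 ≤ |c i| * |x| := by positivity
        nlinarith
      have h5 := (abs_le.1 (Real.abs_exp_sub_one_sub_id_le h4)).2
      have h6 : (l * (c i * x)) ^ 2 ≤ l ^ 2 * x ^ 2 := by
        have h7 : c i ^ 2 ≤ 1 := by nlinarith [hci.1, hci.2]
        have h8 : 0 ≤ l ^ 2 * x ^ 2 := by positivity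
        nlinarith
      linarith
    have e1 := key (1 - p i) (by rw [abs_le]; constructor <;> linarith [hpi.1, hpi.2])
    have e2 := key (0 - p i) (by rw [abs_le]; constructor <;> linarith [hpi.1, hpi.2])
    have e3 : f i true + f i false = p i * Real.exp (l * (c i * (1 - p i))) +
        (1 - p i) * Real.exp (l * (c i * (0 - p i))) := by
      simp [hf]
    rw [e3]
    have e4 := mul_le_mul_of_nonneg_left e1 hpi.1
    have e5 := mul_le_mul_of_nonneg_left e2 (show (0 : ℝ) ≤ 1 - p i by linarith [hpi.2])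
    have e6 : l ^ 2 / 4 + 1 ≤ Real.exp (l ^ 2 / 4) := Real.add_one_le_exp _
    have e7 : p i * (1 - p i) ≤ 1 / 4 := by nlinarith [sq_nonneg (p i - 1 / 2)]
    have e8 : l ^ 2 * (p i * (1 - p i)) ≤ l ^ 2 * (1 / 4) :=
      mul_le_mul_of_nonneg_left e7 (sq_nonneg l)
    nlinarith
  have h4 : ∀ i, i ∉ S → f i true + f i false = 1 := by
    intro i hi
    simp [hf, hS i hi]
  have h5 : ∏ i, (f i true + f i false) = ∏ i ∈ S, (f i true + f i false) := by
    symm
    apply Finset.prod_subset (Finset.subset_univ S)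
    intro i _ hi
    exact h4 i hi
  rw [h5]
  refine (Finset.prod_le_prod (fun i _ => h2 i) h3).trans (le_of_eq ?_)
  rw [Finset.prod_const, ← Real.exp_nat_mul]
  congr 1
  ring

end Pool.Agent.helper71.Bis
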